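import Pool.Agent.Helper8.TYB.Inst
import Pool.Agent.Gen.TY.BA.D325_0

/-!
MP_8ee768_co, project TH-Y', stage B1a: the centre 325 (generated data, helper8).
-/

set_option autoImplicit false
set_option maxRecDepth 100000
set_option linter.defProp false

namespace Pool.Agent.Gen.TY.BA

namespace D325

open Pool.Agent.Helper8.TYB

theorem seg : SB 325 326 :=
  SB.parts (ps := [(1, 8), (1, 16), (1, 32), (1, 64), (1, 128), (1, 256), (1, 1024), (1, 2048), (2, 8), (2, 16), (2, 32), (2, 64), (2, 128), (2, 256), (2, 1024), (2, 2048), (4, 8), (4, 16), (4, 32), (4, 64), (4, 128), (4, 256), (4, 1024), (4, 2048), (512, 248), (512, 3328)]) 326 (by decide +kernel) rfl <|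
  APB.rect D325_0.h_325_0 (by decide) (RB.consy (RB.one D325_0.r_325_0_0) rfl (RB.consy (RB.one D325_0.r_325_0_1) rfl (RB.consy (RB.one D325_0.r_325_0_2) rfl (RB.one D325_0.r_325_0_3)))) <|
  APB.rect D325_0.h_325_1 (by decide) (RB.consy (RB.one D325_0.r_325_1_0) rfl (RB.consy (RB.one D325_0.r_325_1_1) rfl (RB.consy (RB.one D325_0.r_325_1_2) rfl (RB.one D325_0.r_325_1_3)))) <|
  APB.rect D325_0.h_325_2 (by decide) (RB.consy (RB.one D325_0.r_325_2_0) rfl (RB.consy (RB.one D325_0.r_325_2_1) rfl (RB.consy (RB.one D325_0.r_325_2_2) rfl (RB.one D325_0.r_325_2_3)))) <|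
  APB.rect D325_0.h_325_3 (by decide) (RB.consy (RB.one D325_0.r_325_3_0) rfl (RB.consy (RB.one D325_0.r_325_3_1) rfl (RB.consy (RB.one D325_0.r_325_3_2) rfl (RB.one D325_0.r_325_3_3)))) <|
  APB.rect D325_0.h_325_4 (by decide) (RB.consy (RB.one D325_0.r_325_4_0) rfl (RB.consy (RB.one D325_0.r_325_4_1) rfl (RB.consy (RB.one D325_0.r_325_4_2) rfl (RB.consy (RB.one D325_0.r_325_4_3) rfl (RB.one D325_0.r_325_4_4))))) <|
  APB.rect D325_0.h_325_5 (by decide) (RB.consy (RB.one D325_0.r_325_5_0) rfl (RB.consy (RB.one D325_0.r_325_5_1) rfl (RB.consy (RB.one D325_0.r_325_5_2) rfl (RB.one D325_0.r_325_5_3)))) <|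
  APB.rect D325_0.h_325_6 (by decide) (RB.consy (RB.one D325_0.r_325_6_0) rfl (RB.consy (RB.one D325_0.r_325_6_1) rfl (RB.consy (RB.one D325_0.r_325_6_2) rfl (RB.one D325_0.r_325_6_3)))) <|
  APB.rect D325_0.h_325_7 (by decide) (RB.consy (RB.one D325_0.r_325_7_0) rfl (RB.consy (RB.one D325_0.r_325_7_1) rfl (RB.consy (RB.one D325_0.r_325_7_2) rfl (RB.one D325_0.r_325_7_3)))) <|
  APB.rect D325_0.h_325_8 (by decide) (RB.consy (RB.one D325_0.r_325_8_0) rfl (RB.consy (RB.one D325_0.r_325_8_1) rfl (RB.consy (RB.one D325_0.r_325_8_2) rfl (RB.one D325_0.r_325_8_3)))) <|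
  APB.rect D325_0.h_325_9 (by decide) (RB.consy (RB.one D325_0.r_325_9_0) rfl (RB.consy (RB.one D325_0.r_325_9_1) rfl (RB.consy (RB.one D325_0.r_325_9_2) rfl (RB.consy (RB.one D325_0.r_325_9_3) rfl (RB.one D325_0.r_325_9_4))))) <|
  APB.rect D325_0.h_325_10 (by decide) (RB.consy (RB.one D325_0.r_325_10_0) rfl (RB.consy (RB.one D325_0.r_325_10_1) rfl (RB.consy (RB.one D325_0.r_325_10_2) rfl (RB.consy (RB.one D325_0.r_325_10_3) rfl (RB.one D325_0.r_325_10_4))))) <|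
  APB.rect D325_0.h_325_11 (by decide) (RB.consy (RB.one D325_0.r_325_11_0) rfl (RB.consy (RB.one D325_0.r_325_11_1) rfl (RB.consy (RB.one D325_0.r_325_11_2) rfl (RB.one D325_0.r_325_11_3)))) <|
  APB.rect D325_0.h_325_12 (by decide) (RB.consy (RB.one D325_0.r_325_12_0) rfl (RB.consy (RB.one D325_0.r_325_12_1) rfl (RB.consy (RB.one D325_0.r_325_12_2) rfl (RB.consy (RB.one D325_0.r_325_12_3) rfl (RB.one D325_0.r_325_12_4))))) <|
  APB.rect D325_0.h_325_13 (by decide) (RB.consy (RB.one D325_0.r_325_13_0) rfl (RB.consy (RB.one D325_0.r_325_13_1) rfl (RB.consy (RB.one D325_0.r_325_13_2) rfl (RB.one D325_0.r_325_13_3)))) <|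
  APB.rect D325_0.h_325_14 (by decide) (RB.consy (RB.one D325_0.r_325_14_0) rfl (RB.consy (RB.one D325_0.r_325_14_1) rfl (RB.consy (RB.one D325_0.r_325_14_2) rfl (RB.one D325_0.r_325_14_3)))) <|
  APB.rect D325_0.h_325_15 (by decide) (RB.consy (RB.one D325_0.r_325_15_0) rfl (RB.consy (RB.one D325_0.r_325_15_1) rfl (RB.consy (RB.one D325_0.r_325_15_2) rfl (RB.one D325_0.r_325_15_3)))) <|
  APB.rect D325_0.h_325_16 (by decide) (RB.consy (RB.one D325_0.r_325_16_0) rfl (RB.consy (RB.one D325_0.r_325_16_1) rfl (RB.consy (RB.one D325_0.r_325_16_2) rfl (RB.one D325_0.r_325_16_3)))) <|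
  APB.rect D325_0.h_325_17 (by decide) (RB.consy (RB.one D325_0.r_325_17_0) rfl (RB.consy (RB.one D325_0.r_325_17_1) rfl (RB.consy (RB.one D325_0.r_325_17_2) rfl (RB.consy (RB.one D325_0.r_325_17_3) rfl (RB.one D325_0.r_325_17_4))))) <|
  APB.rect D325_0.h_325_18 (by decide) (RB.consy (RB.one D325_0.r_325_18_0) rfl (RB.consy (RB.one D325_0.r_325_18_1) rfl (RB.consy (RB.one D325_0.r_325_18_2) rfl (RB.consy (RB.one D325_0.r_325_18_3) rfl (RB.one D325_0.r_325_18_4))))) <|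
  APB.rect D325_0.h_325_19 (by decide) (RB.consy (RB.one D325_0.r_325_19_0) rfl (RB.consy (RB.one D325_0.r_325_19_1) rfl (RB.consy (RB.one D325_0.r_325_19_2) rfl (RB.one D325_0.r_325_19_3)))) <|
  APB.rect D325_0.h_325_20 (by decide) (RB.consy (RB.one D325_0.r_325_20_0) rfl (RB.consy (RB.one D325_0.r_325_20_1) rfl (RB.consy (RB.one D325_0.r_325_20_2) rfl (RB.consy (RB.one D325_0.r_325_20_3) rfl (RB.one D325_0.r_325_20_4))))) <|
  APB.rect D325_0.h_325_21 (by decide) (RB.consy (RB.one D325_0.r_325_21_0) rfl (RB.consy (RB.one D325_0.r_325_21_1) rfl (RB.consy (RB.one D325_0.r_325_21_2) rfl (RB.one D325_0.r_325_21_3)))) <|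
  APB.rect D325_0.h_325_22 (by decide) (RB.consy (RB.one D325_0.r_325_22_0) rfl (RB.consy (RB.one D325_0.r_325_22_1) rfl (RB.consy (RB.one D325_0.r_325_22_2) rfl (RB.one D325_0.r_325_22_3)))) <|
  APB.rect D325_0.h_325_23 (by decide) (RB.consy (RB.one D325_0.r_325_23_0) rfl (RB.consy (RB.one D325_0.r_325_23_1) rfl (RB.consy (RB.one D325_0.r_325_23_2) rfl (RB.one D325_0.r_325_23_3)))) <|
  APB.cons D325_0.p_325_24 (by decide) <|
  APB.cons D325_0.p_325_25 (by decide) <|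
  APB.nil 325

end D325

end Pool.Agent.Gen.TY.BA
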