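import Pool.Agent.Helper8.TYB.Inst
import Pool.Agent.Gen.TY.BA.D463_0
import Pool.Agent.Gen.TY.BA.D463_1

/-!
MP_8ee768_co, project TH-Y', stage B1a: the centre 463 (generated data, helper8).
-/

set_option autoImplicit false
set_option maxRecDepth 100000
set_option linter.defProp false

namespace Pool.Agent.Gen.TY.BA

namespace D463

open Pool.Agent.Helper8.TYB

theorem seg : SB 463 464 :=
  SB.parts (ps := [(1, 8), (1, 16), (1, 32), (1, 64), (1, 128), (1, 256), (1, 512), (1, 2048), (2, 8), (2, 16), (2, 32), (2, 64), (2, 128), (2, 256), (2, 512), (2, 2048), (4, 8), (4, 16), (4, 32), (4, 64), (4, 128), (4, 256), (4, 512), (4, 2048), (1024, 8), (1024, 48), (1024, 192), (1024, 256), (1024, 512), (1024, 2048)]) 464 (by decide +kernel) rfl <|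
  APB.rect D463_0.h_463_0 (by decide) (RB.consy (RB.one D463_0.r_463_0_0) rfl (RB.consy (RB.one D463_0.r_463_0_1) rfl (RB.consy (RB.one D463_0.r_463_0_2) rfl (RB.consy (RB.one D463_0.r_463_0_3) rfl (RB.one D463_0.r_463_0_4))))) <|
  APB.rect D463_0.h_463_1 (by decide) (RB.consy (RB.one D463_0.r_463_1_0) rfl (RB.consy (RB.one D463_0.r_463_1_1) rfl (RB.consy (RB.one D463_0.r_463_1_2) rfl (RB.consy (RB.one D463_0.r_463_1_3) rfl (RB.consy (RB.one D463_0.r_463_1_4) rfl (RB.one D463_0.r_463_1_5)))))) <|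
  APB.rect D463_0.h_463_2 (by decide) (RB.consy (RB.one D463_0.r_463_2_0) rfl (RB.consy (RB.one D463_0.r_463_2_1) rfl (RB.consy (RB.one D463_0.r_463_2_2) rfl (RB.consy (RB.one D463_0.r_463_2_3) rfl (RB.consy (RB.one D463_0.r_463_2_4) rfl (RB.one D463_0.r_463_2_5)))))) <|
  APB.rect D463_0.h_463_3 (by decide) (RB.consy (RB.one D463_0.r_463_3_0) rfl (RB.consy (RB.one D463_0.r_463_3_1) rfl (RB.consy (RB.one D463_0.r_463_3_2) rfl (RB.consy (RB.one D463_0.r_463_3_3) rfl (RB.consy (RB.one D463_0.r_463_3_4) rfl (RB.one D463_0.r_463_3_5)))))) <|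
  APB.rect D463_0.h_463_4 (by decide) (RB.consy (RB.one D463_0.r_463_4_0) rfl (RB.consy (RB.one D463_0.r_463_4_1) rfl (RB.consy (RB.one D463_0.r_463_4_2) rfl (RB.consy (RB.one D463_0.r_463_4_3) rfl (RB.consy (RB.one D463_0.r_463_4_4) rfl (RB.one D463_0.r_463_4_5)))))) <|
  APB.rect D463_0.h_463_5 (by decide) (RB.consy (RB.one D463_0.r_463_5_0) rfl (RB.consy (RB.one D463_0.r_463_5_1) rfl (RB.consy (RB.one D463_0.r_463_5_2) rfl (RB.consy (RB.one D463_0.r_463_5_3) rfl (RB.one D463_0.r_463_5_4))))) <|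
  APB.rect D463_0.h_463_6 (by decide) (RB.consy (RB.one D463_0.r_463_6_0) rfl (RB.consy (RB.one D463_0.r_463_6_1) rfl (RB.consy (RB.one D463_0.r_463_6_2) rfl (RB.consy (RB.one D463_0.r_463_6_3) rfl (RB.one D463_0.r_463_6_4))))) <|
  APB.rect D463_0.h_463_7 (by decide) (RB.consy (RB.one D463_0.r_463_7_0) rfl (RB.consy (RB.one D463_0.r_463_7_1) rfl (RB.consy (RB.one D463_0.r_463_7_2) rfl (RB.one D463_0.r_463_7_3)))) <|
  APB.rect D463_0.h_463_8 (by decide) (RB.consy (RB.one D463_0.r_463_8_0) rfl (RB.consy (RB.one D463_0.r_463_8_1) rfl (RB.consy (RB.one D463_0.r_463_8_2) rfl (RB.consy (RB.one D463_0.r_463_8_3) rfl (RB.consy (RB.one D463_0.r_463_8_4) rfl (RB.one D463_0.r_463_8_5)))))) <|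
  APB.rect D463_0.h_463_9 (by decide) (RB.consy (RB.one D463_0.r_463_9_0) rfl (RB.consy (RB.one D463_0.r_463_9_1) rfl (RB.consy (RB.one D463_0.r_463_9_2) rfl (RB.consy (RB.one D463_0.r_463_9_3) rfl (RB.one D463_0.r_463_9_4))))) <|
  APB.rect D463_0.h_463_10 (by decide) (RB.consy (RB.one D463_0.r_463_10_0) rfl (RB.consy (RB.one D463_0.r_463_10_1) rfl (RB.consy (RB.one D463_0.r_463_10_2) rfl (RB.consy (RB.one D463_0.r_463_10_3) rfl (RB.consy (RB.one D463_0.r_463_10_4) rfl (RB.one D463_0.r_463_10_5)))))) <|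
  APB.rect D463_0.h_463_11 (by decide) (RB.consy (RB.one D463_0.r_463_11_0) rfl (RB.consy (RB.one D463_0.r_463_11_1) rfl (RB.consy (RB.one D463_0.r_463_11_2) rfl (RB.consy (RB.one D463_0.r_463_11_3) rfl (RB.one D463_0.r_463_11_4))))) <|
  APB.rect D463_0.h_463_12 (by decide) (RB.consy (RB.one D463_0.r_463_12_0) rfl (RB.consy (RB.one D463_0.r_463_12_1) rfl (RB.consy (RB.one D463_0.r_463_12_2) rfl (RB.consy (RB.one D463_0.r_463_12_3) rfl (RB.consy (RB.one D463_0.r_463_12_4) rfl (RB.one D463_0.r_463_12_5)))))) <|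
  APB.rect D463_0.h_463_13 (by decide) (RB.consy (RB.one D463_1.r_463_13_0) rfl (RB.consy (RB.one D463_1.r_463_13_1) rfl (RB.consy (RB.one D463_1.r_463_13_2) rfl (RB.consy (RB.one D463_1.r_463_13_3) rfl (RB.one D463_1.r_463_13_4))))) <|
  APB.rect D463_1.h_463_14 (by decide) (RB.consy (RB.one D463_1.r_463_14_0) rfl (RB.consy (RB.one D463_1.r_463_14_1) rfl (RB.consy (RB.one D463_1.r_463_14_2) rfl (RB.consy (RB.one D463_1.r_463_14_3) rfl (RB.one D463_1.r_463_14_4))))) <|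
  APB.rect D463_1.h_463_15 (by decide) (RB.consy (RB.one D463_1.r_463_15_0) rfl (RB.consy (RB.one D463_1.r_463_15_1) rfl (RB.consy (RB.one D463_1.r_463_15_2) rfl (RB.one D463_1.r_463_15_3)))) <|
  APB.rect D463_1.h_463_16 (by decide) (RB.consy (RB.one D463_1.r_463_16_0) rfl (RB.consy (RB.one D463_1.r_463_16_1) rfl (RB.consy (RB.one D463_1.r_463_16_2) rfl (RB.consy (RB.one D463_1.r_463_16_3) rfl (RB.consy (RB.one D463_1.r_463_16_4) rfl (RB.one D463_1.r_463_16_5)))))) <|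
  APB.rect D463_1.h_463_17 (by decide) (RB.consy (RB.one D463_1.r_463_17_0) rfl (RB.consy (RB.one D463_1.r_463_17_1) rfl (RB.consy (RB.one D463_1.r_463_17_2) rfl (RB.consy (RB.one D463_1.r_463_17_3) rfl (RB.consy (RB.one D463_1.r_463_17_4) rfl (RB.one D463_1.r_463_17_5)))))) <|
  APB.rect D463_1.h_463_18 (by decide) (RB.consy (RB.one D463_1.r_463_18_0) rfl (RB.consy (RB.one D463_1.r_463_18_1) rfl (RB.consy (RB.one D463_1.r_463_18_2) rfl (RB.consy (RB.one D463_1.r_463_18_3) rfl (RB.one D463_1.r_463_18_4))))) <|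
  APB.rect D463_1.h_463_19 (by decide) (RB.consy (RB.one D463_1.r_463_19_0) rfl (RB.consy (RB.one D463_1.r_463_19_1) rfl (RB.consy (RB.one D463_1.r_463_19_2) rfl (RB.consy (RB.one D463_1.r_463_19_3) rfl (RB.consy (RB.one D463_1.r_463_19_4) rfl (RB.one D463_1.r_463_19_5)))))) <|
  APB.rect D463_1.h_463_20 (by decide) (RB.consy (RB.one D463_1.r_463_20_0) rfl (RB.consy (RB.one D463_1.r_463_20_1) rfl (RB.consy (RB.one D463_1.r_463_20_2) rfl (RB.consy (RB.one D463_1.r_463_20_3) rfl (RB.one D463_1.r_463_20_4))))) <|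
  APB.rect D463_1.h_463_21 (by decide) (RB.consy (RB.one D463_1.r_463_21_0) rfl (RB.consy (RB.one D463_1.r_463_21_1) rfl (RB.consy (RB.one D463_1.r_463_21_2) rfl (RB.consy (RB.one D463_1.r_463_21_3) rfl (RB.one D463_1.r_463_21_4))))) <|
  APB.rect D463_1.h_463_22 (by decide) (RB.consy (RB.one D463_1.r_463_22_0) rfl (RB.consy (RB.one D463_1.r_463_22_1) rfl (RB.consy (RB.one D463_1.r_463_22_2) rfl (RB.consy (RB.one D463_1.r_463_22_3) rfl (RB.one D463_1.r_463_22_4))))) <|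
  APB.rect D463_1.h_463_23 (by decide) (RB.consy (RB.one D463_1.r_463_23_0) rfl (RB.consy (RB.one D463_1.r_463_23_1) rfl (RB.consy (RB.one D463_1.r_463_23_2) rfl (RB.one D463_1.r_463_23_3)))) <|
  APB.cons D463_1.p_463_24 (by decide) <|
  APB.cons D463_1.p_463_25 (by decide) <|
  APB.cons D463_1.p_463_26 (by decide) <|
  APB.cons D463_1.p_463_27 (by decide) <|
  APB.rect D463_1.h_463_28 (by decide) (RB.consx (RB.one D463_1.r_463_28_0) rfl (RB.consx (RB.one D463_1.r_463_28_1) rfl (RB.one D463_1.r_463_28_2))) <|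
  APB.rect D463_1.h_463_29 (by decide) (RB.consx (RB.one D463_1.r_463_29_0) rfl (RB.consx (RB.one D463_1.r_463_29_1) rfl (RB.one D463_1.r_463_29_2))) <|
  APB.nil 463

end D463

end Pool.Agent.Gen.TY.BA
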