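import Pool.Agent.Gen.TY.BA.M00
import Pool.Agent.Gen.TY.BA.M01
import Pool.Agent.Gen.TY.BA.M02
import Pool.Agent.Gen.TY.BA.M03
import Pool.Agent.Gen.TY.BA.M04
import Pool.Agent.Gen.TY.BA.M05
import Pool.Agent.Gen.TY.BA.M06
import Pool.Agent.Gen.TY.BA.M07
import Pool.Agent.Gen.TY.BA.M08
import Pool.Agent.Gen.TY.BA.M09
import Pool.Agent.Gen.TY.BA.M10
import Pool.Agent.Gen.TY.BA.M11
import Pool.Agent.Gen.TY.BA.M12
import Pool.Agent.Gen.TY.BA.M13
import Pool.Agent.Gen.TY.BA.M14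
import Pool.Agent.Gen.TY.BA.M15
import Pool.Agent.Gen.TY.BA.M16
import Pool.Agent.Gen.TY.BA.M17
import Pool.Agent.Gen.TY.BA.M18
import Pool.Agent.Gen.TY.BA.M19
import Pool.Agent.Gen.TY.BA.D325
import Pool.Agent.Gen.TY.BA.M20
import Pool.Agent.Gen.TY.BA.M21
import Pool.Agent.Gen.TY.BA.M22
import Pool.Agent.Gen.TY.BA.M23
import Pool.Agent.Gen.TY.BA.M24
import Pool.Agent.Gen.TY.BA.M25
import Pool.Agent.Gen.TY.BA.M26
import Pool.Agent.Gen.TY.BA.D463
import Pool.Agent.Gen.TY.BA.M27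

/-!
MP_8ee768_co, project TH-Y', stage B1a: all centres of excess 2 and 4.
-/

set_option autoImplicit false

namespace Pool.Agent.Gen.TY.BA

open Pool.Agent.Helper8.TYB

/-- **stage B1a**: if the tables are right, all centres of excess 2 and 4 are done -/
theorem all : SB 13 466 :=
  (M00.seg).app <|
  (M01.seg).app <|
  (M02.seg).app <|
  (M03.seg).app <|
  (M04.seg).app <|
  (M05.seg).app <|
  (M06.seg).app <|
  (M07.seg).app <|
  (M08.seg).app <|
  (M09.seg).app <|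
  (M10.seg).app <|
  (M11.seg).app <|
  (M12.seg).app <|
  (M13.seg).app <|
  (M14.seg).app <|
  (M15.seg).app <|
  (M16.seg).app <|
  (M17.seg).app <|
  (M18.seg).app <|
  (M19.seg).app <|
  (D325.seg).app <|
  (M20.seg).app <|
  (M21.seg).app <|
  (M22.seg).app <|
  (M23.seg).app <|
  (M24.seg).app <|
  (M25.seg).app <|
  (M26.seg).app <|
  (D463.seg).app <|
  M27.seg

end Pool.Agent.Gen.TY.BA
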